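import Mathlib
import Pool.Agent.Helper16.DBC.Main

/-!
# Real Deligne cohomology of very general hypersurfaces is not supported in the expected codimension

`Theory` (`Pool/Agent/Helper16/DBC/Defs.lean`): mixed Hodge structures and Deligne-Beilinson cohomology of smooth
complex varieties (Mathlib's schemes), and the categories of admissible variations of mixed Hodge structure.
`Basic`, `Variations`, `Lefschetz.VeryGeneral`, `Lefschetz.Nori` (`Pool/Agent/Helper16/DBC/Facts.lean`): the facts used.

Proof. Let `X` be a very general hypersurface of dimension `2p ≥ 4` and large degree, `Z` closed of codimension `≥ p`.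
The pair extends to a family over an etale neighbourhood `S'` of the point of the parameter space. The
cokernel of `H^(2p)(X) → H^(2p)(X - Z)` is an extension of copies of `ℚ(-p-1)` by the `H¹(Z_k)(-p)`, `Z_k` the resolutions
of the components. Nori's theorem for the total spaces of the `Z_k` shows that, as variations over `S'`, these
have no extension by the primitive part `B` of `H^(2p)(X)`. So `B` is a direct summand of `H^(2p)(X - Z)` as mixed Hodge
structure, and no real class of type `(p, p)` in `B` can vanish in `H^(2p+1)_D(X - Z, ℝ(p+1))`.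
-/

set_option autoImplicit false

open CategoryTheory AlgebraicGeometry Opposite

namespace Pool.Agent.Results.MP_2dc9e5_ag.NoSupport

open Pool.Agent.Helper16.DBC

/-- `L p d` is the universal family of smooth hypersurfaces of dimension `2p` and degree `d`, with the
primitive part `B` of its `2p`-th direct image. Assumed: very general points exist, with
`H^(p,p)` of the primitive part nonzero (`d ≥ 3`); Nori's vanishing for large `d`.

Then for `p ≥ 2` and `d ≥ d₀(p)`, for a very general hypersurface `X_s`, no nonzero primitive class of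
`H^(2p+1)_D(X_s, ℝ(p+1))` has support in codimension `p`; in particular the statement of Q1 is false. -/
theorem result (T : Theory) (hB : T.Basic) (hV : T.Variations) (L : ∀ p _d : ℕ, T.Lefschetz p)
    (hL : ∀ p d : ℕ, 2 ≤ p → 3 ≤ d →
      ∃ s : Pt (L p d).S, (L p d).VeryGeneral s ∧ ((L p d).Bs s).HasType p)
    (hN : ∀ p : ℕ, 2 ≤ p → ∃ d₀ : ℕ, ∀ d ≥ d₀, (L p d).Nori) :
    (∀ p : ℕ, 2 ≤ p → ∃ d₀ : ℕ, ∀ d ≥ d₀, ∀ s : Pt (L p d).S, (L p d).VeryGeneral s →
      (L p d).NoSupport s) ∧
    ¬ T.Q1 := by
  have h1 : ∀ p : ℕ, 2 ≤ p → ∃ d₀ : ℕ, ∀ d ≥ d₀, ∀ s : Pt (L p d).S, (L p d).VeryGeneral s →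
      (L p d).NoSupport s := by
    intro p hp
    obtain ⟨d₀, hd₀⟩ := hN p hp
    exact ⟨d₀, fun d hd s hs => Theory.not_supported hB hV hp (L p d) (hd₀ d hd) s hs⟩
  refine ⟨h1, fun hQ => ?_⟩
  obtain ⟨d₀, hd₀⟩ := h1 2 le_rfl
  obtain ⟨s, hs, x, hx0, hxF, hxF'⟩ := hL 2 (max d₀ 3) le_rfl (le_max_right _ _)
  have hε : MHS.sign ((2 : ℕ) : ℤ) = 1 := by
    rw [MHS.sign, Int.negOnePow_even ((2 : ℕ) : ℤ) ⟨1, by norm_num⟩, Units.val_one]
  -- a real class
  obtain ⟨y, hy⟩ : ∃ y : ((L 2 (max d₀ 3)).Bs s).C,
      ((L 2 (max d₀ 3)).Bs s).RealType (2 : ℕ) y := by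
    have hreal : ∀ z : ((L 2 (max d₀ 3)).Bs s).C,
        MHS.IsReal ((2 : ℕ) : ℤ) (z + ((L 2 (max d₀ 3)).Bs s).bar z) := by
      intro z
      rw [MHS.IsReal, map_add, MHS.bar_bar, hε, one_smul, add_comm]
    by_cases hz : x + MHS.bar _ x = 0
    · refine ⟨Complex.I • x + MHS.bar _ (Complex.I • x), ?_, hreal _, ?_⟩
      · rw [MHS.bar_smul, Complex.conj_I, neg_smul, ← sub_eq_add_neg, ← smul_sub]
        intro h
        have h2 := (smul_eq_zero.1 h).resolve_left Complex.I_ne_zero
        have h3 : (2 : ℂ) • x = 0 := by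
          have : (2 : ℂ) • x = (x + MHS.bar _ x) + (x - MHS.bar _ x) := by module
          rw [this, hz, h2, add_zero]
        exact hx0 ((smul_eq_zero.1 h3).resolve_left two_ne_zero)
      · rw [MHS.bar_smul]
        exact Submodule.add_mem _ (Submodule.smul_mem _ _ hxF) (Submodule.smul_mem _ _ hxF')
    · exact ⟨x + MHS.bar _ x, hz, hreal x, Submodule.add_mem _ hxF hxF'⟩
  have hprop : IsProper ((L 2 (max d₀ 3)).fibre s).str := by
    have := (L 2 (max d₀ 3)).hf.proper
    change IsProper (Limits.pullback.snd (L 2 (max d₀ 3)).f.left s.s)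
    infer_instance
  have hint : IsIntegral ((L 2 (max d₀ 3)).fibre s).carrier := by
    have h3 := (L 2 (max d₀ 3)).hf.fibres
    have h4 := (L 2 (max d₀ 3)).hf.proper
    have h5 := (L 2 (max d₀ 3)).hf.smooth
    have h6 : GeometricallyIntegral (Limits.pullback.snd (L 2 (max d₀ 3)).f.left s.s) := inferInstance
    change IsIntegral (Limits.pullback (L 2 (max d₀ 3)).f.left s.s)
    exact GeometricallyIntegral.isIntegral_of_subsingleton
      (Limits.pullback.snd (L 2 (max d₀ 3)).f.left s.s)
  exact hd₀ _ (le_max_left _ _) s hs y hy (hQ _ hprop hint 5 3 (by norm_num) _)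

end Pool.Agent.Results.MP_2dc9e5_ag.NoSupport
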